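import Mathlib
import Pool.Agent.X225.Specker

/-!
# Substructure-closed classes whose Specker function is not MC-finite
-/

namespace Pool.Agent.Results.MP_904b92_lc.EveryVocabularyEveryModulus

open FirstOrder FirstOrder.Language Pool.Agent.X225.Specker

/-- a sequence is MC-finite if for every `m ≥ 1` it satisfies a linear recurrence modulo `m` from
some point on -/
def IsMCFinite (s : ℕ → ℕ) : Prop := ∀ m : ℕ, 1 ≤ m → RecurrentMod m s

/-- For every finite relational vocabulary `L` with at least one symbol of arity at least two and for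
every modulus `m ≥ 2` there is a class `C` of finite `L`-structures, closed under isomorphism and
substructures, such that the Specker function of `C` satisfies no linear recurrence modulo `m`
(from any point on); in particular it is not MC-finite. -/
theorem result (L : FirstOrder.Language.{0, 0}) [L.IsRelational] [Finite (Σ n, L.Relations n)]
    (hL : ∃ n : ℕ, 2 ≤ n ∧ Nonempty (L.Relations n)) (m : ℕ) (hm : 2 ≤ m) :
    ∃ C : StrClass L, SubstructureClosed C ∧ ¬ RecurrentMod m (Sp C) ∧ ¬ IsMCFinite (Sp C) := by
  obtain ⟨n, hn, ⟨R⟩⟩ := hL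
  obtain ⟨r, rfl⟩ : ∃ r, n = r + 2 := ⟨n - 2, by omega⟩
  have hp : Fact (Nat.minFac m).Prime := ⟨Nat.minFac_prime (by omega)⟩
  obtain ⟨C, hC, -, hrec⟩ := exists_not_recurrent (pathFamily (Nat.minFac m) hp.out.pos R)
  have h : ¬ RecurrentMod m (Sp C) := by
    rintro ⟨r', q, h1, h2, α, hα⟩
    refine hrec ⟨r', q, h1, h2, α, fun n hn => (hα n hn).of_dvd ?_⟩
    exact_mod_cast Nat.minFac_dvd m
  exact ⟨C, hC, h, fun h2 => h (h2 m (by omega))⟩

end Pool.Agent.Results.MP_904b92_lc.EveryVocabularyEveryModulus
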